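import Pool.Agent.Ins33.Forest

set_option autoImplicit false

namespace Pool.Agent.Results.MP_cc4cfd_al.OrientedForests

universe u

/-- An `n`-ary polymorphism of the digraph `H` with vertex set `V`: a map from `V^n` to `V` that
preserves the edges of `H`. -/
def IsPolymorphism {V : Type u} (H : Digraph V) {n : ℕ} (f : (Fin n → V) → V) : Prop :=
  ∀ x y : Fin n → V, (∀ i, H.Adj (x i) (y i)) → H.Adj (f x) (f y)

/-- The Kearnes-Markovic-McKenzie identities for two ternary operations:
`p(x,y,y) = q(y,x,x) = q(x,x,y)` and `p(x,y,x) = q(x,y,x)` for all `x, y`. -/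
def IsKMM {V : Type u} (p q : (Fin 3 → V) → V) : Prop :=
  ∀ x y : V, p ![x, y, y] = q ![y, x, x] ∧ q ![y, x, x] = q ![x, x, y] ∧
    p ![x, y, x] = q ![x, y, x]

/-- A `k`-ary weak near-unanimity operation: the value at a tuple with one entry `y` and all other
entries `x` does not depend on the place of `y`. -/
def IsWNU {V : Type u} {k : ℕ} (f : (Fin k → V) → V) : Prop :=
  ∀ x y : V, ∀ i j : Fin k,
    f (Function.update (fun _ => x) i y) = f (Function.update (fun _ => x) j y)

/-- The digraph `H` has KMM polymorphisms. -/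
def HasKMM {V : Type u} (H : Digraph V) : Prop :=
  ∃ p q : (Fin 3 → V) → V, IsPolymorphism H p ∧ IsPolymorphism H q ∧ IsKMM p q

/-- The digraph `H` has a `k`-wnu polymorphism. -/
def HasWNU {V : Type u} (H : Digraph V) (k : ℕ) : Prop :=
  ∃ w : (Fin k → V) → V, IsPolymorphism H w ∧ IsWNU w

/-- `H` is an orientation of a forest: it has no loop and no pair of opposite edges, and its
underlying undirected graph has no cycle. -/
def IsOrientedForest {V : Type u} (H : Digraph V) : Prop :=
  (∀ a, ¬ H.Adj a a) ∧ (∀ a b, H.Adj a b → ¬ H.Adj b a) ∧ H.toSimpleGraphInclusive.IsAcyclic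

/-- `H` is an orientation of a tree. -/
def IsOrientedTree {V : Type u} (H : Digraph V) : Prop :=
  (∀ a, ¬ H.Adj a a) ∧ (∀ a b, H.Adj a b → ¬ H.Adj b a) ∧ H.toSimpleGraphInclusive.IsTree

lemma vec3 {V : Type u} (x : Fin 3 → V) : x = ![x 0, x 1, x 2] := by
  funext i
  fin_cases i <;> rfl

lemma upd0 {V : Type u} (x y : V) :
    Function.update (fun _ : Fin 3 => x) 0 y = ![y, x, x] := by
  funext i
  fin_cases i <;> simp [Function.update]

lemma upd1 {V : Type u} (x y : V) :
    Function.update (fun _ : Fin 3 => x) 1 y = ![x, y, x] := by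
  funext i
  fin_cases i <;> simp [Function.update]

lemma upd2 {V : Type u} (x y : V) :
    Function.update (fun _ : Fin 3 => x) 2 y = ![x, x, y] := by
  funext i
  fin_cases i <;> simp [Function.update]

lemma isWNU3 {V : Type u} (f : (Fin 3 → V) → V)
    (h : ∀ x y : V, f ![x, x, y] = f ![x, y, x] ∧ f ![x, y, x] = f ![y, x, x]) : IsWNU f := by
  intro x y
  have key : ∀ i : Fin 3, f (Function.update (fun _ => x) i y) = f ![y, x, x] := by
    intro i
    fin_cases i
    · exact congrArg f (upd0 x y)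
    · exact (congrArg f (upd1 x y)).trans (h x y).2
    · exact (congrArg f (upd2 x y)).trans ((h x y).1.trans (h x y).2)
  intro i j
  rw [key i, key j]

/-- The hard direction, for vertex sets in any universe. -/
lemma wnu_of_kmm {V : Type u} [Finite V] (H : Digraph V) (hH : IsOrientedForest H)
    (hK : HasKMM H) : HasWNU H 3 := by
  obtain ⟨hirr, hasym, hac⟩ := hH
  obtain ⟨p, q, hp, hq, hpq⟩ := hK
  obtain ⟨n, ⟨e⟩⟩ := Finite.exists_equiv_fin V
  let E : Fin n → Fin n → Prop := fun a b => H.Adj (e.symm a) (e.symm b)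
  have hac' : (SimpleGraph.fromRel E).IsAcyclic := by
    refine SimpleGraph.IsAcyclic.comap (G' := H.toSimpleGraphInclusive) ⟨e.symm, ?_⟩
      e.symm.injective hac
    intro a b hab
    change (SimpleGraph.fromRel H.Adj).Adj (e.symm a) (e.symm b)
    rw [SimpleGraph.fromRel_adj] at hab ⊢
    exact ⟨fun h' => hab.1 (e.symm.injective h'), hab.2⟩
  have hpol : ∀ f : (Fin 3 → V) → V, IsPolymorphism H f →
      ∀ x1 x2 x3 y1 y2 y3 : Fin n, E x1 y1 → E x2 y2 → E x3 y3 →
        E (e (f ![e.symm x1, e.symm x2, e.symm x3])) (e (f ![e.symm y1, e.symm y2, e.symm y3])) := by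
    intro f hf x1 x2 x3 y1 y2 y3 h1 h2 h3
    change H.Adj (e.symm (e _)) (e.symm (e _))
    rw [e.symm_apply_apply, e.symm_apply_apply]
    apply hf
    intro i
    fin_cases i
    · exact h1
    · exact h2
    · exact h3
  obtain ⟨w, hw, hsym⟩ := Pool.Agent.Ins33.Forest.forward (Fin n) E (fun a => hirr _)
    (fun a b => hasym _ _) hac'
    (fun x y z => e (p ![e.symm x, e.symm y, e.symm z]))
    (fun x y z => e (q ![e.symm x, e.symm y, e.symm z]))
    (hpol p hp) (hpol q hq)
    (fun x y => by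
      obtain ⟨h1, h2, h3⟩ := hpq (e.symm x) (e.symm y)
      exact ⟨congrArg e h1, congrArg e h2, congrArg e h3⟩)
  refine ⟨fun x => e.symm (w (e (x 0)) (e (x 1)) (e (x 2))), ?_, ?_⟩
  · intro x y hxy
    have h := hw (e (x 0)) (e (x 1)) (e (x 2)) (e (y 0)) (e (y 1)) (e (y 2))
      (by change H.Adj (e.symm (e _)) (e.symm (e _)); simpa using hxy 0)
      (by change H.Adj (e.symm (e _)) (e.symm (e _)); simpa using hxy 1)
      (by change H.Adj (e.symm (e _)) (e.symm (e _)); simpa using hxy 2)
    exact h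
  · apply isWNU3
    intro x y
    obtain ⟨h1, h2⟩ := hsym (e x) (e y)
    exact ⟨congrArg e.symm h1, congrArg e.symm h2⟩

/-- The easy direction. -/
lemma kmm_of_wnu {V : Type u} (H : Digraph V) (hW : HasWNU H 3) : HasKMM H := by
  obtain ⟨w, hw, hsym⟩ := hW
  refine ⟨fun x => w ![x 0, x 0, x 1], w, ?_, hw, ?_⟩
  · intro x y hxy
    apply hw
    intro i
    fin_cases i
    · exact hxy 0
    · exact hxy 0
    · exact hxy 1
  · intro x y
    have h01 := hsym x y 0 1
    have h12 := hsym x y 1 2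
    rw [upd0, upd1] at h01
    rw [upd1, upd2] at h12
    have e1 : (fun z : Fin 3 → V => w ![z 0, z 0, z 1]) ![x, y, y] = w ![x, x, y] := by simp
    have e2 : (fun z : Fin 3 → V => w ![z 0, z 0, z 1]) ![x, y, x] = w ![x, x, y] := by simp
    exact ⟨by rw [e1]; exact (h01.trans h12).symm, h01.trans h12, by rw [e2]; exact h12.symm⟩

theorem result {V : Type u} [Finite V] (H : Digraph V) :
    (IsOrientedForest H → (HasKMM H ↔ HasWNU H 3)) ∧
      (IsOrientedTree H → (HasKMM H ↔ HasWNU H 3)) :=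
  ⟨fun hH => ⟨wnu_of_kmm H hH, kmm_of_wnu H⟩,
    fun hH => ⟨wnu_of_kmm H ⟨hH.1, hH.2.1, hH.2.2.isAcyclic⟩, kmm_of_wnu H⟩⟩

end Pool.Agent.Results.MP_cc4cfd_al.OrientedForests
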